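import Pool.Agent.H24.RCN.Targets

/-!
# MP_4d5ac9_nt: row RK (the rank of the units)
-/

set_option autoImplicit false

open NumberField Pool.Agent.H24.RCN

namespace Pool.Agent.H11.RCN

theorem rank_tc (K : Type) [Field K] [NumberField K] [IsTotallyComplex K] :
    2 * (Units.rank K + 1) = Module.finrank ℚ K := by
  have h1 : 0 < Fintype.card (InfinitePlace K) := Fintype.card_pos
  have h2 := IsTotallyComplex.finrank (K := K)
  have h3 : Units.rank K = Fintype.card (InfinitePlace K) - 1 := rfl
  have h4 := InfinitePlace.card_eq_nrRealPlaces_add_nrComplexPlaces (K := K)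
  have h5 := IsTotallyComplex.nrRealPlaces_eq_zero K
  rw [h2, h3]
  omega

theorem pf_RK : T_RK := by
  intro F L _ _ _ _ _ _ κ hκ
  have hF : IsTotallyComplex F := inferInstance
  have hL : IsTotallyComplex L := isTotallyComplex_of_algebra F L
  have h1 := rank_tc F
  have h2 := rank_tc L
  have h3 : Module.finrank ℚ F * Module.finrank F L = Module.finrank ℚ L :=
    Module.finrank_mul_finrank ℚ F L
  rw [hκ, ← h1, ← h2] at h3
  have h4 : 2 * (Units.rank L + 1) = 2 * (κ * (Units.rank F + 1)) := by
    rw [← h3]
    ring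
  exact Nat.eq_of_mul_eq_mul_left (by norm_num) h4

end Pool.Agent.H11.RCN
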